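import Pool.Agent.Helper44.GH.Stmts

set_option autoImplicit false

open Set

namespace Pool.Agent.Helper44.GH

theorem st_MP1 : ST_MP1 := by
  intro E _ K hK hc ha
  have hdir : Directed (fun x1 x2 : Set E => x1 ⊇ x2) K := by
    intro i j
    exact ⟨max i j, ha (le_max_left i j), ha (le_max_right i j)⟩
  have hcl : ∀ k, IsClosed (K k) := fun k => (hK k).isClosed
  have hclI : IsClosed (⋂ k, K k) := isClosed_iInter hcl
  have hcomp : IsCompact (⋂ k, K k) := (hK 0).of_isClosed_subset hclI (iInter_subset K 0)
  refine ⟨hcomp, ?_, ?_⟩
  · exact IsCompact.nonempty_iInter_of_directed_nonempty_isCompact_isClosed K hdir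
      (fun k => (hc k).nonempty) hK hcl
  · rw [isPreconnected_iff_subset_of_fully_disjoint_closed hclI]
    intro u v hu hv huv hdis
    obtain ⟨U, V, hU, hV, huU, hvV, hUV⟩ := normal_separation hu hv hdis
    have hsub : ∃ k, K k ⊆ U ∪ V := by
      apply exists_subset_nhds_of_isCompact hdir hK
      intro x hx
      have h1 : x ∈ U ∪ V := by
        rcases huv hx with h | h
        · exact Or.inl (huU h)
        · exact Or.inr (hvV h)
      exact (hU.union hV).mem_nhds h1
    obtain ⟨k, hk⟩ := hsub
    have hpre : IsPreconnected (K k) := (hc k).isPreconnected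
    rcases hpre.subset_or_subset hU hV hUV hk with h | h
    · left
      intro x hx
      rcases huv hx with h1 | h1
      · exact h1
      · exfalso
        have h2 : x ∈ U := h (mem_iInter.1 hx k)
        have h3 : x ∈ V := hvV h1
        exact (Set.disjoint_left.1 hUV) h2 h3
    · right
      intro x hx
      rcases huv hx with h1 | h1
      · exfalso
        have h2 : x ∈ V := h (mem_iInter.1 hx k)
        have h3 : x ∈ U := huU h1
        exact (Set.disjoint_left.1 hUV) h3 h2
      · exact h1

end Pool.Agent.Helper44.GH
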